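import Mathlib

set_option autoImplicit false
open Relation Finset

namespace Pool.Agent.H.MP_c69494_co

theorem levels {V : Type} [Finite V] (D : V → V → Prop) (hD : ∀ v, ¬ D v v) (K : ℕ) (p : ℕ → V)
    (hp : ∀ f : ℕ → V, (∀ i j, i < j → j ≤ K → f i ≠ f j) → (∀ i < K, D (f i) (f (i + 1))) →
      ∀ i ≤ K, f i = p i) :
    ∃ a b : V → ℕ, (∀ u v, D u v → (a u < a v ∧ b u < b v) ∨ (a v < a u ∧ b v < b u)) ∧
      (∀ v, a v ≤ b v ∧ b v ≤ K) ∧ ∀ v, a v = b v → v = p (a v) := by
  classical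
  obtain ⟨E, hE⟩ := exists_maximal_of_wellFoundedGT (fun E : V → V → Prop => E ≤ D ∧
    ∀ v, ¬ TransGen E v v) ⟨⊥, bot_le, fun v h => by cases h <;> assumption⟩
  have cmp : ∀ u v, D u v → TransGen E u v ∨ TransGen E v u := fun u v h => by
    by_contra! c
    refine c.1 (.single (hE.2 (y := fun x y => E x y ∨ (x = u ∧ y = v)) ⟨?_, fun x hx => ?_⟩
      (fun _ _ => .inl) u v (.inr ⟨rfl, rfl⟩)))
    · rintro x y (e | ⟨rfl, rfl⟩); exacts [hE.1.1 x y e, h]
    have : ∀ x y, TransGen (fun x y => E x y ∨ (x = u ∧ y = v)) x y → TransGen E x y ∨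
        (ReflTransGen E x u ∧ ReflTransGen E v y) := fun x y t => by
      induction t with
      | single e => exact e.imp .single fun ⟨a, b⟩ => ⟨a ▸ .refl, b ▸ .refl⟩
      | tail _ e ih =>
        rcases e with e | ⟨rfl, rfl⟩
        · exact ih.imp (·.tail e) fun a => ⟨a.1, a.2.tail e⟩
        · exact .inr ⟨ih.elim (·.to_reflTransGen) (·.1), .refl⟩
    rcases this x x hx with e | e
    · exact hE.1.2 x e
    · rcases reflTransGen_iff_eq_or_transGen.1 (e.2.trans e.1) with rfl | e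
      exacts [hD _ h, c.2 e]
  let W (n : ℕ) (f : ℕ → V) := ∀ i < n, E (f i) (f (i + 1))
  have key : ∀ f, W K f → ∀ i ≤ K, f i = p i := fun f h => hp f (fun i j a b e => by
    have : TransGen E (f i) (f j) := by
      clear e
      induction j, a using Nat.le_induction with
      | base => exact .single (h i b)
      | succ j _ ih => exact (ih (by omega)).tail (h j b)
    exact hE.1.2 _ (e ▸ this)) fun i a => hE.1.1 _ _ (h i a)
  have no : ∀ n f, W n f → n ≤ K := fun n f h => by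
    by_contra! c
    have := h 0 (by omega)
    rw [key f (fun i a => h i (by omega)) 0 (by omega), key (fun i => f (i + 1))
      (fun i a => h _ (by omega)) 0 (by omega)] at this
    exact hE.1.2 _ (.single this)
  let A (v : V) (n : ℕ) := ∃ f, W n f ∧ f n = v
  let B (v : V) (n : ℕ) := ∃ f, W n f ∧ f 0 = v
  have cat : ∀ v n m, A v n → B v m → ∃ f, W (n + m) f ∧ f n = v ∧ (m = 1 → ∀ w, E v w → A w (n + 1)) := by
    rintro _ n m ⟨f, a, rfl⟩ ⟨g, b, c⟩
    refine ⟨fun i => if i ≤ n then f i else g (i - n), fun i h => ?_, by simp, fun _ w e =>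
      ⟨fun i => if i ≤ n then f i else w, fun i h => ?_, by simp⟩⟩
    · have := a i; have := b (i - n)
      grind
    · have := a i; grind
  have hA : ∀ v, A v (Nat.findGreatest (A v) K) := fun v =>
    Nat.findGreatest_spec (Nat.zero_le K) ⟨fun _ => v, by simp [W], rfl⟩
  have hB : ∀ v, B v (Nat.findGreatest (B v) K) := fun v =>
    Nat.findGreatest_spec (Nat.zero_le K) ⟨fun _ => v, by simp [W], rfl⟩
  have st : ∀ u v, TransGen E u v → Nat.findGreatest (A u) K < Nat.findGreatest (A v) K ∧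
      Nat.findGreatest (B v) K < Nat.findGreatest (B u) K := fun u v t => by
    have : ∀ u v, E u v → Nat.findGreatest (A u) K < Nat.findGreatest (A v) K ∧
        Nat.findGreatest (B v) K < Nat.findGreatest (B u) K := fun u v e => by
      have b : ∀ m, B v m → B u (m + 1) := fun m ⟨g, b, c⟩ => ⟨fun i => i.casesOn u g, fun i h => by
        cases i with
        | zero => exact (show E u (g 0) from c ▸ e)
        | succ i => exact b i (by omega), rfl⟩
      obtain ⟨-, -, -, c⟩ := cat u _ 1 (hA u) (b 0 ⟨fun _ => v, by simp [W], rfl⟩)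
      obtain ⟨f, c⟩ := c rfl v e
      obtain ⟨g, d⟩ := b _ (hB v)
      exact ⟨Nat.le_findGreatest (no _ _ c.1) ⟨f, c⟩, Nat.le_findGreatest (no _ _ d.1) ⟨g, d⟩⟩
    induction t with
    | single e => exact this _ _ e
    | tail _ e ih => have := this _ _ e; omega
  have le := fun v => (cat v _ _ (hA v) (hB v)).elim fun f h => no _ f h.1
  refine ⟨fun v => Nat.findGreatest (A v) K, fun v => K - Nat.findGreatest (B v) K, fun u v h => ?_,
    fun v => ⟨by have := le v; beta_reduce; omega, by beta_reduce; omega⟩, fun v h => ?_⟩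
  · have := le u; have := le v
    rcases cmp u v h with e | e <;> have := st _ _ e <;> beta_reduce <;> omega
  · obtain ⟨f, a, b, -⟩ := cat v _ _ (hA v) (hB v)
    have := le v
    beta_reduce at h
    exact b.symm.trans (key f (fun i c => a i (by omega)) _ (by omega))

abbrev V (k : ℕ) := Fin 7 ⊕ Fin 7 × Fin (k - 3)

/-- The graph `G_k`. -/
def G (k : ℕ) : SimpleGraph (V k) := .fromRel fun
  | .inl i, .inl j => j = i + 1
  | .inr (i, _), .inr (j, _) => i = j
  | .inr (i, _), .inl j => j = i ∨ j = i + 1 ∨ j = i + 3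
  | .inl _, .inr _ => False

variable {k : ℕ} {c : V k → ℕ} (hc : ∀ u v, (G k).Adj u v → c u ≠ c v) (hk : ∀ v, c v < k)
include hc hk

theorem sur (l : Fin 7) {x y z : ℕ} (h : x ≠ y ∧ x ≠ z ∧ y ≠ z) (h' : x < k ∧ y < k ∧ z < k)
    (H : ∀ s, c (.inr (l, s)) ≠ x ∧ c (.inr (l, s)) ≠ y ∧ c (.inr (l, s)) ≠ z) {t : ℕ} (h1 : t < k)
    (h2 : t ≠ x ∧ t ≠ y ∧ t ≠ z) : ∃ s, c (.inr (l, s)) = t := by
  have : univ.image (fun s => c (.inr (l, s))) = range k \ {x, y, z} := eq_of_subset_of_card_le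
    (fun a => by simp only [mem_image]; rintro ⟨s, -, rfl⟩; simpa [hk] using H s) (by
      rw [card_image_of_injective _ fun a b e => by_contra fun d => hc _ _ (by simpa [G]) e,
        card_sdiff_of_subset (by simp [insert_subset_iff, h']), (card_eq_three (s := {x, y, z})).2 ⟨x, y, z, by simp [h]⟩]
      simp)
  simpa using (this.ge (show t ∈ _ by simp [h1, h2]))

theorem nr (l : Fin 7) {j : ℕ} (hj : j < k) (h : ∀ s, c (.inr (l, s)) ≠ j) (h1 : c (.inl l) ≠ j)
    (h2 : c (.inl (l + 1)) ≠ j) (h3 : c (.inl (l + 3)) ≠ j) :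
    c (.inl (l + 3)) = c (.inl l) ∨ c (.inl (l + 3)) = c (.inl (l + 1)) := by
  by_contra! e
  obtain ⟨s, d⟩ := sur hc hk l ⟨hc _ _ (by simp [G]), e.1.symm, e.2.symm⟩ ⟨hk _, hk _, hk _⟩
    (fun s => ⟨hc _ _ (by simp [G]), hc _ _ (by simp [G]), hc _ _ (by simp [G])⟩) hj
    ⟨h1.symm, h2.symm, h3.symm⟩
  exact h s d

theorem pat {j : ℕ} (hj : j < k) (h : ∀ i, c (.inl i) ≠ j) (h' : ∀ l ≠ 0, ∀ s, c (.inr (l, s)) ≠ j) :
    c (.inl 2) = c (.inl 0) ∧ c (.inl 4) = c (.inl 1) ∧ c (.inl 5) = c (.inl 0) ∧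
      c (.inl 6) = c (.inl 1) ∧ c (.inl 0) ≠ c (.inl 1) ∧ c (.inl 0) ≠ c (.inl 3) ∧
        c (.inl 1) ≠ c (.inl 3) := by
  have a := fun l e => nr hc hk l hj (h' l e) (h _) (h _) (h _)
  have b : ∀ l, c (.inl l) ≠ c (.inl (l + 1)) := fun l => hc _ _ (by simp [G])
  have := a 1; have := a 2; have := a 3; have := a 4; have := a 5; have := a 6
  have := b 0; have := b 1; have := b 2; have := b 3; have := b 4; have := b 5; have := b 6
  clear a b h h' hc hk
  simp only [Fin.reduceAdd, ne_eq, Fin.reduceEq, not_false_eq_true, forall_const] at *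
  omega

theorem down {j : ℕ} (hj : j < k) {On : V k → Prop} (hA : ∀ v, c v = j → On v)
    (hB : ∀ u v, On v → (G k).Adj u v → c u + 1 = c v → c v ≤ j → On u)
    (hC : ∀ u v, On u → On v → c u = c v → u = v) {s : Fin (k - 3)} (hs : c (.inr (0, s)) = j)
    {x : Fin 7} (hx : x = 0 ∨ x = 1 ∨ x = 3) (h0 : 0 < c (.inl x)) (h1 : c (.inl x) < j)
    (hm : ∀ y, y = 0 ∨ y = 1 ∨ y = 3 → c (.inl y) < j → c (.inl y) ≤ c (.inl x)) : False := by
  have u := fun v e => hC v _ (hA v e) (hA _ hs) (e.trans hs.symm)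
  have h : ∀ i, c (.inl i) ≠ j := fun i e => by cases u _ e
  have h' : ∀ l ≠ 0, ∀ s, c (.inr (l, s)) ≠ j := fun l d s e => by cases u _ e; exact d rfl
  obtain ⟨p2, p4, p5, p6, q1, q2, q3⟩ := pat hc hk hj h h'
  have ad : ∀ l s, c (.inr (l, s)) ≠ c (.inl l) ∧ c (.inr (l, s)) ≠ c (.inl (l + 1)) ∧
    c (.inr (l, s)) ≠ c (.inl (l + 3)) := fun l s =>
      ⟨hc _ _ (by simp [G]), hc _ _ (by simp [G]), hc _ _ (by simp [G])⟩
  have ind : ∀ d t, c (.inr (0, t)) + d = j → c (.inl x) < c (.inr (0, t)) → On (.inr (0, t)) := fun d => by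
    induction d with
    | zero => exact fun t e _ => hA _ e
    | succ d ih =>
      intro t e f
      have := hm 0; have := hm 1; have := hm 3; have := h 0; have := h 1; have := h 3
      obtain ⟨w, hw⟩ := sur hc hk 0 ⟨q1, q2, q3⟩ ⟨hk _, hk _, hk _⟩ (ad 0) (t := c (.inr (0, t)) + 1)
        (by omega) (by grind)
      exact hB _ _ (ih w (by omega) (by omega)) (by simp [G]; grind) hw.symm (by omega)
  have ox : On (.inl x) := by
    have := hm 0; have := hm 1; have := hm 3; have := h 0; have := h 1; have := h 3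
    obtain ⟨w, hw⟩ := sur hc hk 0 ⟨q1, q2, q3⟩ ⟨hk _, hk _, hk _⟩ (ad 0) (t := c (.inl x) + 1)
      (by omega) (by grind)
    exact hB _ _ (ind (j - c (.inr (0, w))) w (by omega) (by omega)) (by simpa [G] using hx) hw.symm
      (by omega)
  have fin : ∀ u v, (G k).Adj u (.inl x) → (G k).Adj v (.inl x) → c u = c (.inl x) - 1 →
      c v = c (.inl x) - 1 → u = v := fun u v a b e f =>
    hC _ _ (hB _ _ ox a (by omega) h1.le) (hB _ _ ox b (by omega) h1.le) (e.trans f.symm)
  have g : ∀ l ≠ 0, c (.inl x) - 1 ≠ c (.inl l) → c (.inl x) - 1 ≠ c (.inl (l + 1)) →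
      ∃ s, c (.inr (l, s)) = c (.inl x) - 1 := fun l e a b =>
    sur hc hk l ⟨hc _ _ (by simp [G]), h _, h _⟩ ⟨hk _, hk _, hj⟩
      (fun s => ⟨(ad l s).1, (ad l s).2.1, h' l e s⟩) (by omega) ⟨a, b, by omega⟩
  rcases hx with rfl | rfl | rfl
  · by_cases e : c (.inl 0) - 1 = c (.inl 1)
    · cases fin (.inl 1) (.inl 6) (by simp [G]) (by simp [G]) e.symm (p6.trans e.symm)
    · obtain ⟨s, a⟩ := g 6 (by decide) (by omega) (by show _ ≠ c (.inl 0); omega)
      obtain ⟨t, b⟩ := g 4 (by decide) (by omega) (by show _ ≠ c (.inl 5); omega)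
      cases fin _ _ (by simp [G]) (by simp [G]) a b
  · by_cases e : c (.inl 1) - 1 = c (.inl 0)
    · cases fin (.inl 0) (.inl 2) (by simp [G]) (by simp [G]) e.symm (p2.trans e.symm)
    · obtain ⟨s, a⟩ := g 1 (by decide) (by omega) (by show _ ≠ c (.inl 2); omega)
      obtain ⟨t, b⟩ := g 5 (by decide) (by omega) (by show _ ≠ c (.inl 6); omega)
      cases fin _ _ (by simp [G]) (by simp [G]) a b
  · by_cases e : c (.inl 3) - 1 = c (.inl 0)
    · obtain ⟨s, a⟩ := g 3 (by decide) (by omega) (by show _ ≠ c (.inl 4); omega)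
      cases fin (.inl 2) _ (by simp [G]) (by simp [G]) (p2.trans e.symm) a
    obtain ⟨s, a⟩ := g 2 (by decide) (by omega) (by show _ ≠ c (.inl 3); omega)
    by_cases e : c (.inl 3) - 1 = c (.inl 1)
    · cases fin (.inl 4) _ (by simp [G]) (by simp [G]) (p4.trans e.symm) a
    · obtain ⟨t, b⟩ := g 3 (by decide) (by omega) (by show _ ≠ c (.inl 4); omega)
      cases fin _ _ (by simp [G]) (by simp [G]) a b

theorem notin {j : ℕ} (hj : j < k) {On : V k → Prop} (hA : ∀ v, c v = j → On v)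
    (hB : ∀ u v, On v → (G k).Adj u v → c u + 1 = c v → c v ≤ j → On u)
    (hB' : ∀ u v, On v → (G k).Adj u v → c u = c v + 1 → j ≤ c v → On u)
    (hC : ∀ u v, On u → On v → c u = c v → u = v) (s : Fin (k - 3)) : c (.inr (0, s)) ≠ j := by
  intro hs
  have u := fun v e => hC v _ (hA v e) (hA _ hs) (e.trans hs.symm)
  have h : ∀ i, c (.inl i) ≠ j := fun i e => by cases u _ e
  obtain ⟨-, -, -, -, q1, q2, q3⟩ := pat hc hk hj h fun l d s e => by cases u _ e; exact d rfl
  have d := fun x => down hc hk hj hA hB hC hs (x := x)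
  have d' := fun x => down (c := fun v => k - 1 - c v) (j := k - 1 - j) (On := On)
    (fun u v a => by have := hc u v a; have := hk u; have := hk v; omega) (fun v => by omega) (by omega)
    (fun v e => hA v (by have := hk v; omega))
    (fun u v a b e f => hB' u v a b (by have := hk u; have := hk v; omega) (by have := hk v; omega))
    (fun u v a b e => hC u v a b (by have := hk u; have := hk v; omega)) (s := s) (by rw [hs]) (x := x)
  have := d 0; have := d 1; have := d 3; have := d' 0; have := d' 1; have := d' 3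
  have := h 0; have := h 1; have := h 3; have := hk (.inl 0); have := hk (.inl 1); have := hk (.inl 3)
  clear d d' h u hA hB hB' hC hc hk
  simp only [forall_eq_or_imp, forall_eq, true_or, or_true, forall_const, imp_false] at *
  omega

omit hc hk
def sh (l : Fin 7) : V k → V k := Sum.map (· + l) (Prod.map (· + l) id)

theorem sh_adj (l : Fin 7) (u v : V k) (h : (G k).Adj u v) : (G k).Adj (sh l u) (sh l v) := by
  rcases u with i | ⟨i, s⟩ <;> rcases v with j | ⟨j, t⟩ <;> simp [G, sh] at h ⊢ <;> grind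

theorem main (h6 : 6 ≤ k) {a b : V k → ℕ} {p : ℕ → V k}
    (h1 : ∀ u v, (G k).Adj u v → (a u < a v ∧ b u < b v) ∨ (a v < a u ∧ b v < b u))
    (h2 : ∀ v, a v ≤ b v ∧ b v ≤ k - 1) (h3 : ∀ v, a v = b v → v = p (a v)) : False := by
  have H : ∀ j < k, ∃ c : V k → ℕ, (∀ u v, (G k).Adj u v → c u ≠ c v) ∧ (∀ v, c v < k) ∧
      (∀ v, c v = j → a v = b v) ∧ (∀ v, a v = b v → c v = a v) ∧ ∀ l s, c (.inr (l, s)) ≠ j := by
    intro j hj
    obtain ⟨c, hc⟩ : ∃ c : V k → ℕ, ∀ v, c v = if a v < j then a v else b v := ⟨_, fun _ => rfl⟩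
    have c1 : ∀ u v, (G k).Adj u v → c u ≠ c v := fun u v e => by
      have := h1 u v e; have := h2 u; have := h2 v; grind
    have c2 : ∀ v, c v < k := fun v => by have := h2 v; grind
    have c3 : ∀ v, c v = j → a v = b v := fun v => by have := h2 v; grind
    have c4 : ∀ v, a v = b v → c v = a v := by grind
    refine ⟨c, c1, c2, c3, c4, fun l s => ?_⟩
    simpa [sh] using notin (c := c ∘ sh l) (On := fun v => a (sh l v) = b (sh l v))
      (fun u v e => c1 _ _ (sh_adj l u v e)) (fun _ => c2 _) hj (fun _ => c3 _)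
      (fun u v e f => by have := h1 _ _ (sh_adj l u v f); have := h2 (sh l u); grind)
      (fun u v e f => by have := h1 _ _ (sh_adj l u v f); have := h2 (sh l u); grind)
      (fun u v e f g => (Sum.map_injective.2 ⟨add_left_injective l, (add_left_injective l).prodMap
        Function.injective_id⟩ : Function.Injective (sh l)) ((h3 _ e).trans (by
          rw [← c4 _ e, show c (sh l u) = c (sh l v) from g, c4 _ f]; exact (h3 _ f).symm))) s
  have ex : ∀ j < k, ∃ i, a (.inl i) = b (.inl i) ∧ a (.inl i) = j := fun j hj => by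
    obtain ⟨c, c1, c2, c3, c4, c5⟩ := H j hj
    by_contra! e
    have h : ∀ i, c (.inl i) ≠ j := fun i d => e i (c3 _ d) ((c4 _ (c3 _ d)).symm.trans d)
    have := pat c1 c2 hj h fun l _ => c5 l
    have := nr c1 c2 0 hj (c5 0) (h _) (h _) (h _)
    simp only [zero_add] at this
    omega
  choose! g g1 g2 using ex
  obtain ⟨l, l0, l1, l2, l3⟩ := (by decide +kernel : ∀ S : Finset (Fin 7), 6 ≤ #S →
    ∃ l ∈ S, l + 1 ∈ S ∧ l + 2 ∈ S ∧ l + 3 ∈ S) {i | a (.inl i) = b (.inl i)} (by
      simpa using card_le_card_of_injOn (s := range 6) g (fun j hj => by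
        simpa using g1 j (by simp at hj; omega)) fun i hi j hj e => by
          simp at hi hj; rw [← g2 i (by omega), e, g2 j (by omega)])
  simp only [mem_filter, mem_univ, true_and] at l0 l1 l2 l3
  obtain ⟨c, c1, c2, c3, c4, c5⟩ := H (a (.inl (l + 2))) (by have := h2 (.inl (l + 2)); omega)
  have u : ∀ i j, a (.inl i) = b (.inl i) → a (.inl j) = b (.inl j) → i ≠ j → c (.inl i) ≠ c (.inl j) :=
    fun i j e f d g => d (Sum.inl_injective ((h3 _ e).trans (by rw [← c4 _ e, g, c4 _ f, ← h3 _ f])))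
  rw [← c4 _ l2] at c5
  exact (nr c1 c2 l (c2 _) (c5 l) (u _ _ l0 l2 (by simp)) (u _ _ l1 l2 (by simp))
    (u _ _ l3 l2 (by simp))).elim (u _ _ l3 l0 (by simp)) (u _ _ l3 l1 (by simp))

end Pool.Agent.H.MP_c69494_co
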